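import Pool.Agent.Y981.QB.Stm

set_option autoImplicit false

/-!
# QB-GEO: the code of a light path
-/

namespace Pool.Agent.Y154.QB

open H978R2.Hex Pool.Agent.Y981.QB

theorem lev_adj {u v : V} (h : Adj u v) : lev v ≤ lev u + 1 ∧ lev u ≤ lev v + 1 := by
  unfold lev
  rcases h with h | h | ⟨h, _⟩ | ⟨h, _⟩
  all_goals
    have h1 := congrArg Prod.fst h
    have h2 := congrArg Prod.snd h
    simp only [Prod.fst_sub, Prod.snd_sub] at h1 h2
    constructor <;> omega

theorem seg (t : ℕ → ℕ) (p q x : ℕ) (hpq : p ≤ q) (h1 : t p < x) (h2 : x ≤ t q) :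
    ∃ j, p ≤ j ∧ j < q ∧ t j ≤ x ∧ x ≤ t (j + 1) := by
  induction q, hpq using Nat.le_induction with
  | base => omega
  | succ q hq ih =>
    by_cases h : x ≤ t q
    · obtain ⟨j, a, b, c, d⟩ := ih h
      exact ⟨j, a, by omega, c, d⟩
    · exact ⟨q, hq, by omega, by omega, h2⟩

theorem seg' (t : ℕ → ℕ) (p q x : ℕ) (hpq : p ≤ q) (h1 : t p ≤ x) (h2 : x < t q) :
    ∃ j, p ≤ j ∧ j < q ∧ t j ≤ x ∧ x ≤ t (j + 1) := by
  induction q, hpq using Nat.le_induction with
  | base => omega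
  | succ q hq ih =>
    by_cases h : x < t q
    · obtain ⟨j, a, b, c, d⟩ := ih h
      exact ⟨j, a, by omega, c, d⟩
    · exact ⟨q, hq, by omega, by omega, h2.le⟩

theorem t_mono (t : ℕ → ℕ) (k : ℕ) (ht : ∀ j < k, t j < t (j + 1)) (p q : ℕ) (hpq : p ≤ q)
    (hq : q ≤ k) : t p ≤ t q := by
  induction q, hpq using Nat.le_induction with
  | base => exact le_rfl
  | succ q hq' ih =>
    have := ih (by omega)
    have := ht q (by omega)
    omega

theorem steps_le (a : ℕ → ℤ) (c : ℤ) (p : ℕ) : ∀ n : ℕ,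
    (∀ q < n, |a (p + q + 1) - a (p + q)| ≤ c) → |a (p + n) - a p| ≤ n * c := by
  intro n
  induction n with
  | zero => intro _; simp
  | succ n ih =>
    intro h
    have h1 := ih (fun q hq => h q (by omega))
    have h2 := h n (by omega)
    have h3 : a (p + (n + 1)) - a p = (a (p + n + 1) - a (p + n)) + (a (p + n) - a p) := by
      rw [← add_assoc]; ring
    rw [h3]
    refine (abs_add_le _ _).trans ?_
    push_cast
    linarith

theorem div_le_div_add (W x y n : ℤ) (hW : 0 < W) (h : x ≤ y + n * W) : x / W ≤ y / W + n := by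
  have h1 : x / W ≤ (y + n * W) / W := Int.ediv_le_ediv hW h
  rwa [Int.add_mul_ediv_right _ _ hW.ne'] at h1

theorem abs_div_le (W x y n : ℤ) (hW : 0 < W) (h : |x - y| ≤ n * W) : |x / W - y / W| ≤ n := by
  rw [abs_le] at h ⊢
  have h1 := div_le_div_add W x y n hW (by linarith)
  have h2 := div_le_div_add W y x n hW (by linarith)
  constructor <;> linarith

/-- discrete first time -/
theorem first_time (f : ℕ → ℤ) (T1 T2 : ℕ) (h : ℤ) (hT : T1 ≤ T2) (h1 : f T1 < h) (h2 : h ≤ f T2) :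
    ∃ b, T1 < b ∧ b ≤ T2 ∧ h ≤ f b ∧ ∀ i, T1 ≤ i → i < b → f i < h := by
  classical
  have hex : ∃ b, T1 ≤ b ∧ h ≤ f b := ⟨T2, hT, h2⟩
  refine ⟨Nat.find hex, ?_, Nat.find_le ⟨hT, h2⟩, (Nat.find_spec hex).2, ?_⟩
  · have := (Nat.find_spec hex).1
    rcases this.lt_or_eq with h' | h'
    · exact h'
    · exfalso
      have h3 := (Nat.find_spec hex).2
      rw [← h'] at h3
      omega
  · intro i hi hib
    by_contra hc
    exact Nat.find_min hex hib ⟨hi, not_lt.mp hc⟩

/-- discrete last time -/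
theorem last_time (f : ℕ → ℤ) (T1 : ℕ) (A : ℤ) (h1 : f T1 ≤ A) : ∀ b, T1 < b → A < f b →
    ∃ a, T1 ≤ a ∧ a < b ∧ f a ≤ A ∧ ∀ i, a < i → i ≤ b → A < f i := by
  intro b hb
  induction b, hb using Nat.le_induction with
  | base =>
    intro h
    exact ⟨T1, le_rfl, by omega, h1, fun i hi hi2 => by
      have : i = T1 + 1 := by omega
      rw [this]; exact h⟩
  | succ b hb ih =>
    intro h
    by_cases hc : A < f b
    · obtain ⟨a, ha1, ha2, ha3, ha4⟩ := ih hc
      refine ⟨a, ha1, by omega, ha3, fun i hi hi2 => ?_⟩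
      rcases hi2.lt_or_eq with h' | h'
      · exact ha4 i hi (by omega)
      · rw [h']; exact h
    · refine ⟨b, by omega, by omega, by omega, fun i hi hi2 => ?_⟩
      have : i = b + 1 := by omega
      rw [this]; exact h

/-! ## blocks -/

theorem BOK_mono {g A A' H : ℤ} (hA : A' ≤ A) (B : List (ℤ × ℤ)) (h : BOK g A B H) :
    BOK g A' B H := by
  cases B with
  | nil => exact ⟨by have := h.1; omega, h.2⟩
  | cons p B => exact ⟨by have := h.1; omega, h.2.1, h.2.2⟩

theorem BOK_map (W : ℤ) (hW : 1 ≤ W) (hWe : Even W) (D H : ℤ) (hD : Even D) (y : ℕ → ℤ)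
    (rest : List (ℤ × ℤ)) : ∀ (n i : ℕ) (A : ℤ), A ≤ D + 34 * W * i - 2 * W →
    BOK (16 * W) (D + 34 * W * ((i + n : ℕ) : ℤ) - 2 * W) rest H →
    BOK (16 * W) A ((List.range' i n).map (fun i : ℕ => (D + 34 * W * i, y i)) ++ rest) H := by
  intro n
  induction n with
  | zero =>
    intro i A hA h
    simp only [List.range'_zero, List.map_nil, List.nil_append]
    simp only [add_zero] at h
    exact BOK_mono hA _ h
  | succ n ih =>
    intro i A hA h
    simp only [List.range'_succ, List.map_cons, List.cons_append]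
    refine ⟨?_, ?_, ?_⟩
    · show A + 2 ≤ D + 34 * W * i
      linarith
    · show Even (D + 34 * W * i)
      exact hD.add ((hWe.mul_left 34).mul_right _)
    · show BOK (16 * W) (D + 34 * W * i + 2 * (16 * W)) _ H
      apply ih
      · push_cast
        linarith
      · have : i + 1 + n = i + (n + 1) := by ring
        rw [this]
        exact h

theorem BOK_subs (W j : ℤ) (hW : 1 ≤ W) (hWe : Even W) (p : ℤ × ℤ) (A H : ℤ)
    (rest : List (ℤ × ℤ)) (hA : A ≤ W * p.1 + 4 * W)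
    (h : BOK (16 * W) (W * p.1 + 6804 * W) rest H) :
    BOK (16 * W) A (subs W j p ++ rest) H := by
  unfold subs
  rw [List.range_eq_range']
  apply BOK_map W hW hWe (W * p.1 + 6 * W) H ((hWe.mul_right _).add (hWe.mul_left _))
    (fun i : ℕ => W * p.2 - 3 * W - 1 - (j * (6 * W + 34 * W * i + 32 * W)) / 12800) rest NS 0 A
  · push_cast
    linarith
  · have : W * p.1 + 6 * W + 34 * W * ((0 + NS : ℕ) : ℤ) - 2 * W = W * p.1 + 6804 * W := by
      unfold NS
      push_cast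
      ring
    rw [this]
    exact h

theorem wins_eq (W j : ℤ) (P Q : ℕ → ℤ) (C : Finset ℕ) : ∀ n s : ℕ,
    wins W j (P s, Q s) ((List.range' s n).map
      (fun b => (decide (b ∈ C), P (b + 1) - P b, Q (b + 1) - Q b))) =
    (List.range' s n).flatMap (fun b => if b ∈ C then subs W j (P b, Q b) else []) := by
  intro n
  induction n with
  | zero => intro s; rfl
  | succ n ih =>
    intro s
    simp only [List.range'_succ, List.map_cons, List.flatMap_cons, wins, add_sub_cancel,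
      decide_eq_true_eq]
    rw [ih]

theorem BOK_flat (W j : ℤ) (hW : 1 ≤ W) (hWe : Even W) (P Q : ℕ → ℤ) (C : Finset ℕ) (H : ℤ)
    (hH : Even H) (h1 : ∀ b ∈ C, W * P b + 6804 * W + 2 ≤ H)
    (h2 : ∀ b ∈ C, ∀ b' ∈ C, b < b' → P b + 6809 ≤ P b') : ∀ (n s : ℕ) (A : ℤ), A + 2 ≤ H →
    (∀ b ∈ C, s ≤ b → A ≤ W * P b + 4 * W) →
    BOK (16 * W) A
      ((List.range' s n).flatMap (fun b => if b ∈ C then subs W j (P b, Q b) else [])) H := by
  intro n
  induction n with
  | zero => intro s A hA _; exact ⟨hA, hH⟩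
  | succ n ih =>
    intro s A hA hb
    simp only [List.range'_succ, List.flatMap_cons]
    by_cases hs : s ∈ C
    · simp only [hs, if_true]
      apply BOK_subs W j hW hWe (P s, Q s) A H _ (hb s hs le_rfl)
      apply ih
      · exact h1 s hs
      · intro b hbC hsb
        have := h2 s hs b hbC (by omega)
        show W * P s + 6804 * W ≤ W * P b + 4 * W
        nlinarith
    · simp only [hs, if_false, List.nil_append]
      exact ih (s + 1) A hA (fun b hbC hsb => hb b hbC (by omega))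

theorem mem_flat (W j : ℤ) (P Q : ℕ → ℤ) (C : Finset ℕ) (n s : ℕ) (p : ℤ × ℤ)
    (h : p ∈ (List.range' s n).flatMap (fun b => if b ∈ C then subs W j (P b, Q b) else [])) :
    ∃ b ∈ C, ∃ i : ℕ, i < 200 ∧ p = (W * P b + 6 * W + 34 * W * i,
      W * Q b - 3 * W - 1 - (j * (6 * W + 34 * W * i + 32 * W)) / 12800) := by
  rw [List.mem_flatMap] at h
  obtain ⟨b, _, hb⟩ := h
  split_ifs at hb with hC
  · refine ⟨b, hC, ?_⟩
    unfold subs at hb
    rw [List.mem_map] at hb
    obtain ⟨i, hi, hip⟩ := hb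
    refine ⟨i, ?_, hip.symm⟩
    simpa [NS] using hi
  · simp at hb

/-- the row inequalities inside a block -/
theorem row_ineq (W : ℤ) (κ : ℝ) (j : ℤ) (hW : 1 ≤ W) (hj0 : 0 ≤ j) (hj : j ≤ 3200)
    (hk1 : (j : ℝ) ≤ 12800 * κ) (hk2 : 12800 * κ < j + 1)
    (P Q lz rz l r : ℤ) (i : ℕ) (hi : i < 200)
    (hP : W * P ≤ lz) (hP2 : lz ≤ W * P + W - 1) (hQ : W * Q ≤ rz) (hQ2 : rz ≤ W * Q + W - 1)
    (h : |((r - rz : ℤ) : ℝ) + κ * ((l - lz : ℤ) : ℝ)| ≤ W)
    (h1 : W * P + 6 * W + 34 * W * i + 1 ≤ l)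
    (h2 : l ≤ W * P + 6 * W + 34 * W * i + 32 * W) :
    W * Q - 3 * W - 1 - (j * (6 * W + 34 * W * i + 32 * W)) / 12800 ≤ r ∧
    r ≤ W * Q - 3 * W - 1 - (j * (6 * W + 34 * W * i + 32 * W)) / 12800 + 16 * W - 1 := by
  have hi' : (i : ℤ) ≤ 199 := by omega
  have hi0 : (0 : ℤ) ≤ i := by omega
  have hWi : 0 ≤ W * (i : ℤ) := by positivity
  have hWi' : W * (i : ℤ) ≤ W * 199 := mul_le_mul_of_nonneg_left hi' (by omega)
  obtain ⟨E, hE⟩ : ∃ E : ℤ, E = 6 * W + 34 * W * i + 32 * W := ⟨_, rfl⟩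
  have hE1 : E ≤ 6804 * W := by rw [hE]; linarith
  have hE2 : 38 * W ≤ E := by rw [hE]; linarith
  obtain ⟨x, hx⟩ : ∃ x : ℤ, x = l - lz := ⟨_, rfl⟩
  have hx1 : E - 33 * W + 2 ≤ x := by rw [hx, hE]; linarith
  have hx2 : x ≤ E := by rw [hx, hE]; linarith
  rw [← hE]
  rw [← hx] at h
  obtain ⟨f, hf⟩ : ∃ f : ℤ, f = (j * E) / 12800 := ⟨_, rfl⟩
  have hf1 : 12800 * f ≤ j * E := by
    rw [hf]; exact Int.mul_ediv_self_le (by norm_num)
  have hf2 : j * E < 12800 * f + 12800 := by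
    rw [hf]
    have := Int.lt_mul_ediv_self_add (x := j * E) (k := 12800) (by norm_num)
    linarith
  rw [← hf]
  -- to the reals
  have hx0 : (0 : ℝ) ≤ (x : ℝ) := by
    have : (0 : ℤ) ≤ x := by linarith
    exact_mod_cast this
  have a1 : (j : ℝ) * x ≤ 12800 * κ * x := mul_le_mul_of_nonneg_right hk1 hx0
  have a2 : 12800 * κ * x ≤ ((j : ℝ) + 1) * x := mul_le_mul_of_nonneg_right hk2.le hx0
  rw [abs_le] at h
  obtain ⟨b1, b2⟩ := h
  push_cast at b1 b2
  have b3 : (j * x : ℤ) ≤ 12800 * W - 12800 * (r - rz) := by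
    have : ((j * x : ℤ) : ℝ) ≤ ((12800 * W - 12800 * (r - rz) : ℤ) : ℝ) := by
      push_cast; linarith
    exact_mod_cast this
  have b4 : 12800 * (-W) - (j + 1) * x ≤ 12800 * (r - rz) := by
    have : ((12800 * (-W) - (j + 1) * x : ℤ) : ℝ) ≤ ((12800 * (r - rz) : ℤ) : ℝ) := by
      push_cast; linarith
    exact_mod_cast this
  have c1 : j * (E - 33 * W + 2) ≤ j * x := mul_le_mul_of_nonneg_left hx1 hj0
  have c2 : (j + 1) * x ≤ (j + 1) * E := mul_le_mul_of_nonneg_left hx2 (by omega)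
  have c3 : j * (33 * W - 2) ≤ 3200 * (33 * W - 2) :=
    mul_le_mul_of_nonneg_right hj (by omega)
  constructor
  · have : 12800 * (W * Q - 3 * W - 1 - f) ≤ 12800 * r := by linarith
    linarith
  · have : 12800 * r ≤ 12800 * (W * Q - 3 * W - 1 - f + 16 * W - 1) := by linarith
    linarith

end Pool.Agent.Y154.QB
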