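import Pool.Agent.Y154.QB.Geo

set_option autoImplicit false

/-!
# QB-GEO: the code of a light path, main proof
-/

namespace Pool.Agent.Y154.QB

open H978R2.Hex Pool.Agent.Y981.QB

/-- the count of clean blocks -/
theorem count_clean (lam k B g c β : ℕ) (hlam : 10 ^ 13 ≤ lam) (hB : B = k / 6400)
    (hk1 : (1 - 1 / 10 ^ 12) * (lam : ℝ) ≤ k)
    (hG : (k / 6400 : ℝ) - 1 - lam / 10 ^ 6 ≤ (g : ℝ)) (hβ : β = B - g)
    (hc : B ≤ c + 11 * β) : (lam : ℝ) / 12800 ≤ c := by
  have hlam' : (10 : ℝ) ^ 13 ≤ lam := by exact_mod_cast hlam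
  have h1 : k < 6400 * (B + 1) := by omega
  have h1' : (k : ℝ) < 6400 * (B + 1) := by exact_mod_cast h1
  have h2 : 6400 * B ≤ k := by omega
  have h2' : 6400 * (B : ℝ) ≤ k := by exact_mod_cast h2
  have h3 : (β : ℝ) ≤ 1 + lam / 10 ^ 6 := by
    by_cases h : g ≤ B
    · rw [hβ, Nat.cast_sub h]
      linarith
    · have : β = 0 := by omega
      rw [this]
      push_cast
      positivity
  have h4 : (B : ℝ) ≤ c + 11 * β := by exact_mod_cast hc
  have h5 : (10000000000000 : ℝ) ≤ lam := by
    have : ((10 : ℝ) ^ 13) = 10000000000000 := by norm_num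
    rw [← this]; exact hlam'
  norm_num at hk1 h3
  linarith

theorem geo (h1 : S_G1) (h2 : S_G2) : S_GEO := by
  intro W lam m γ hW hWe hlam hadj hL hS
  obtain ⟨κ, k, t, G, hκ0, hκ1, hk1, hk2, ht0, htm, htk, hseg, hG, hGb⟩ :=
    h1 W lam m γ hW hlam hadj hL hS
  simp only [LL, NS] at hG hGb
  push_cast at hG
  have hW1 : 1 ≤ W := le_trans (by norm_num) hW
  have hWz : (10 : ℤ) ^ 13 ≤ (W : ℤ) := by exact_mod_cast hW
  have hW0 : (0 : ℤ) < (W : ℤ) := by omega
  have hWe' : Even (W : ℤ) := by exact_mod_cast hWe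
  obtain ⟨B, hB⟩ : ∃ B, B = k / 6400 := ⟨_, rfl⟩
  have hBk : 6400 * B ≤ k := by omega
  obtain ⟨a, ha⟩ : ∃ a : ℕ → ℤ, a = fun j => lev (γ (t j)) := ⟨_, rfl⟩
  obtain ⟨r, hr⟩ : ∃ r : ℕ → ℤ, r = fun j => (γ (t j)).2 := ⟨_, rfl⟩
  have haj : ∀ j, lev (γ (t j)) = a j := fun j => by rw [ha]
  have hrj : ∀ j, (γ (t j)).2 = r j := fun j => by rw [hr]
  simp only [haj, hrj] at hseg hGb
  have htk' : ∀ j ≤ k, t j ≤ m := fun j hj => (t_mono t k htm j k hj le_rfl).trans htk
  have hstep : ∀ j < k, |a (j + 1) - a j| ≤ 2 * W ∧ |r (j + 1) - r j| ≤ W := by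
    intro j hj
    have := hseg j hj.le (t (j + 1)) (htm j hj).le (htk' (j + 1) hj) (fun _ => le_rfl)
    rw [haj, hrj] at this
    exact this
  obtain ⟨C, hCG, hBC, hC⟩ := h2 6400 B W (B - G.card) a G (by norm_num) hW1
    (fun j hj => (hstep j (by omega)).1)
    (fun b hb => by
      obtain ⟨g1, g2, g3, _⟩ := hGb b hb
      refine ⟨by omega, g2, ?_⟩
      push_cast at g3 ⊢
      linarith) (by omega)
  have hcard : (lam : ℝ) / 12800 ≤ (C.card : ℝ) :=
    count_clean lam k B G.card C.card _ hlam hB hk1 hG rfl hBC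
  have hlam' : (10 : ℝ) ^ 13 ≤ lam := by exact_mod_cast hlam
  have hCB : ∀ b ∈ C, b < B := fun b hb => by
    have := (hGb b (hCG hb)).1
    omega
  have hCne : C.Nonempty := by
    rw [← Finset.card_pos]
    have : (0 : ℝ) < C.card := lt_of_lt_of_le (by positivity) hcard
    exact_mod_cast this
  -- the integers P, Q
  obtain ⟨P, hP⟩ : ∃ P : ℕ → ℤ, P = fun b => a (6400 * b) / W := ⟨_, rfl⟩
  obtain ⟨Q, hQ⟩ : ∃ Q : ℕ → ℤ, Q = fun b => r (6400 * b) / W := ⟨_, rfl⟩
  have hP1 : ∀ b, (W : ℤ) * P b ≤ a (6400 * b) := fun b => by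
    rw [hP]; exact Int.mul_ediv_self_le hW0.ne'
  have hP2 : ∀ b, a (6400 * b) ≤ W * P b + W - 1 := fun b => by
    have := Int.lt_mul_ediv_self_add (x := a (6400 * b)) (k := (W : ℤ)) hW0
    rw [hP]
    show a (6400 * b) ≤ W * (a (6400 * b) / W) + W - 1
    linarith
  have hQ1 : ∀ b, (W : ℤ) * Q b ≤ r (6400 * b) := fun b => by
    rw [hQ]; exact Int.mul_ediv_self_le hW0.ne'
  have hQ2 : ∀ b, r (6400 * b) ≤ W * Q b + W - 1 := fun b => by
    have := Int.lt_mul_ediv_self_add (x := r (6400 * b)) (k := (W : ℤ)) hW0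
    rw [hQ]
    show r (6400 * b) ≤ W * (r (6400 * b) / W) + W - 1
    linarith
  -- clean blocks: growth
  have hgrow : ∀ b ∈ C, a (6400 * b) + 6809 * W ≤ a (6400 * (b + 1)) := fun b hb => by
    have := (hGb b (hCG hb)).2.2.1
    push_cast at this
    linarith
  have hPP : ∀ b ∈ C, ∀ b' ∈ C, b < b' → P b + 6809 ≤ P b' := by
    intro b hb b' hb' hlt
    have g1 := hgrow b hb
    have g2 := (hC b hb).2 (6400 * b') (by omega) (by have := hCB b' hb'; omega)
    have g3 := div_le_div_add (W : ℤ) (a (6400 * b)) (a (6400 * b')) (-6809) hW0 (by linarith)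
    have g4 : P b = a (6400 * b) / W := by rw [hP]
    have g5 : P b' = a (6400 * b') / W := by rw [hP]
    rw [g4, g5]
    linarith
  obtain ⟨b1, hb1⟩ : ∃ b1, b1 = C.min' hCne := ⟨_, rfl⟩
  obtain ⟨bl, hbl⟩ : ∃ bl, bl = C.max' hCne := ⟨_, rfl⟩
  have hb1C : b1 ∈ C := by rw [hb1]; exact C.min'_mem hCne
  have hblC : bl ∈ C := by rw [hbl]; exact C.max'_mem hCne
  have hb1le : ∀ b ∈ C, b1 ≤ b := fun b hb => by rw [hb1]; exact C.min'_le b hb
  have hblge : ∀ b ∈ C, b ≤ bl := fun b hb => by rw [hbl]; exact C.le_max' b hb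
  have hPmono : ∀ b ∈ C, ∀ b' ∈ C, b ≤ b' → P b ≤ P b' := fun b hb b' hb' hle => by
    rcases hle.lt_or_eq with h | h
    · have := hPP b hb b' hb' h
      omega
    · rw [h]
  obtain ⟨H, hH⟩ : ∃ H : ℤ, H = W * P bl + 6804 * W + 2 := ⟨_, rfl⟩
  have hHe : Even H := by
    rw [hH]
    exact ((hWe'.mul_right _).add (hWe'.mul_left _)).add (by decide)
  have hHC : ∀ b ∈ C, (W : ℤ) * P b + 6804 * W + 2 ≤ H := fun b hb => by
    rw [hH]
    have := mul_le_mul_of_nonneg_left (hPmono b hb bl hblC (hblge b hb)) hW0.le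
    linarith
  obtain ⟨A, hA⟩ : ∃ A : ℤ, A = W * P b1 + 4 * W := ⟨_, rfl⟩
  have hAe : Even A := by
    rw [hA]
    exact (hWe'.mul_right _).add (hWe'.mul_left _)
  have hAC : ∀ b ∈ C, A ≤ W * P b + 4 * W := fun b hb => by
    rw [hA]
    have := mul_le_mul_of_nonneg_left (hPmono b1 hb1C b hb (hb1le b hb)) hW0.le
    linarith
  have hAH : A + 2 ≤ H := by
    have g1 := hHC b1 hb1C
    rw [hA]
    linarith
  -- times
  have hbl1 : bl + 1 ≤ B := hCB bl hblC
  have hT : t (6400 * b1) ≤ t (6400 * (bl + 1)) :=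
    t_mono t k htm _ _ (by have := hb1le bl hblC; omega) (by omega)
  have hTB : t (6400 * (bl + 1)) ≤ t (6400 * B) :=
    t_mono t k htm _ _ (by omega) (by omega)
  have hTm : t (6400 * B) ≤ m := htk' _ hBk
  obtain ⟨b, hb1', hb2', hb3', hb4'⟩ := first_time (fun i => lev (γ i)) (t (6400 * b1))
    (t (6400 * (bl + 1))) (H + 1) hT
    (by
      show lev (γ (t (6400 * b1))) < H + 1
      rw [haj]
      have g1 := hP2 b1
      have g2 := hHC b1 hb1C
      linarith)
    (by
      show H + 1 ≤ lev (γ (t (6400 * (bl + 1))))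
      rw [haj]
      have g1 := hgrow bl hblC
      have g2 := hP1 bl
      rw [hH]
      linarith)
  have hbm : b ≤ m := by omega
  have hbH : lev (γ b) = H + 1 := by
    have g1 := hb4' (b - 1) (by omega) (by omega)
    have g2 := (lev_adj (hadj (b - 1) (by omega))).1
    rw [Nat.sub_add_cancel (by omega)] at g2
    omega
  obtain ⟨a', ha1, ha2, ha3, ha4⟩ := last_time (fun i => lev (γ i)) (t (6400 * b1)) A
    (by
      show lev (γ (t (6400 * b1))) ≤ A
      rw [haj]
      have g1 := hP2 b1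
      rw [hA]
      linarith) b hb1' (by
      show A < lev (γ b)
      rw [hbH]
      linarith)
  have haA : lev (γ a') = A := by
    have g1 := ha4 (a' + 1) (by omega) (by omega)
    have g2 := (lev_adj (hadj a' (by omega))).1
    omega
  -- the code
  refine ⟨⌊12800 * κ⌋₊, (List.range B).map
    (fun b => (decide (b ∈ C), P (b + 1) - P b, Q (b + 1) - Q b)), a', b, H, ?_, ?_, ?_, ?_, ha2,
    hbm, ?_, ?_, ?_, ?_, hbH, ?_⟩
  · apply Nat.floor_le_of_le
    push_cast
    linarith
  · rw [List.length_map, List.length_range]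
    have : 6400 * (B : ℝ) ≤ k := by exact_mod_cast hBk
    linarith
  · intro c hc
    rw [List.mem_map] at hc
    obtain ⟨q, hq, rfl⟩ := hc
    rw [List.mem_range] at hq
    have e1 : P (q + 1) = a (6400 * (q + 1)) / W := by rw [hP]
    have e2 : P q = a (6400 * q) / W := by rw [hP]
    have e3 : Q (q + 1) = r (6400 * (q + 1)) / W := by rw [hQ]
    have e4 : Q q = r (6400 * q) / W := by rw [hQ]
    simp only [e1, e2, e3, e4]
    constructor
    · apply abs_div_le _ _ _ _ hW0
      have := steps_le a (2 * W) (6400 * q) 6400 (fun i hi => (hstep _ (by omega)).1)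
      have e : 6400 * q + 6400 = 6400 * (q + 1) := by ring
      rw [e] at this
      push_cast at this
      linarith
    · apply abs_div_le _ _ _ _ hW0
      have := steps_le r W (6400 * q) 6400 (fun i hi => (hstep _ (by omega)).2)
      have e : 6400 * q + 6400 = 6400 * (q + 1) := by ring
      rw [e] at this
      push_cast at this
      linarith
  · have : (((List.range B).map
        (fun b => (decide (b ∈ C), P (b + 1) - P b, Q (b + 1) - Q b))).filter
          (fun c => c.1)).length = C.card := by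
      rw [List.filter_map, List.length_map]
      have e : ((fun c : Bool × ℤ × ℤ => c.1) ∘
          (fun b => (decide (b ∈ C), P (b + 1) - P b, Q (b + 1) - Q b))) =
          fun b => decide (b ∈ C) := rfl
      rw [e]
      have hnd : ((List.range B).filter (fun b => decide (b ∈ C))).Nodup :=
        List.nodup_range.filter _
      rw [← List.toFinset_card_of_nodup hnd]
      congr 1
      ext x
      simp only [List.mem_toFinset, List.mem_filter, List.mem_range, decide_eq_true_eq]
      exact ⟨fun h => h.2, fun h => ⟨hCB x h, h⟩⟩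
    rw [this]
    exact hcard
  · have : Even (lev (γ a')) := by rw [haA]; exact hAe
    unfold lev at this
    rw [Int.even_sub] at this
    rw [Int.even_add]
    exact this
  · rw [haA]
    have e0 : (lev (γ 0) / (W : ℤ), (γ 0).2 / (W : ℤ)) = (P 0, Q 0) := by
      rw [hP, hQ]
      simp only [mul_zero]
      rw [← haj, ← hrj, ht0]
    rw [e0, List.range_eq_range', wins_eq]
    apply BOK_flat _ _ (by omega) hWe' P Q C H hHe hHC hPP
    · exact hAH
    · intro b hb _
      exact hAC b hb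
  · intro i hi hi2
    rw [haA]
    exact ha4 i hi hi2
  · intro i hi hi2
    have := hb4' i (by omega) hi2
    omega
  · intro p hp i hi1 hi2 hl1 hl2
    have e0 : (lev (γ 0) / (W : ℤ), (γ 0).2 / (W : ℤ)) = (P 0, Q 0) := by
      rw [hP, hQ]
      simp only [mul_zero]
      rw [← haj, ← hrj, ht0]
    rw [e0, List.range_eq_range', wins_eq] at hp
    obtain ⟨c, hc, n, hn, rfl⟩ := mem_flat _ _ _ _ _ _ _ _ hp
    simp only at hl1 hl2 ⊢
    have hn' : (n : ℤ) ≤ 199 := by omega
    have hWn : 0 ≤ (W : ℤ) * (n : ℤ) := by positivity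
    have hWn' : (W : ℤ) * (n : ℤ) ≤ W * 199 := mul_le_mul_of_nonneg_left hn' hW0.le
    have hcB := hCB c hc
    have p1 := hP1 c
    have p2 := hP2 c
    -- the time lies in the block
    have hlow : t (6400 * c) ≤ i := by
      by_contra hlt
      push Not at hlt
      obtain ⟨j', j1, j2, j3, j4⟩ := seg' t 0 (6400 * c) i (by omega) (by omega) hlt
      have g1 := (hseg j' (by omega) i j3 (by omega) (fun _ => j4)).1
      have g2 := (hC c hc).1 j' (by omega)
      rw [abs_le] at g1
      linarith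
    have hupp : i ≤ t (6400 * (c + 1)) := by
      by_contra hlt
      push Not at hlt
      obtain ⟨j', j1, j2, j3, j4⟩ := seg t (6400 * (c + 1)) (6400 * B) i (by omega) hlt (by omega)
      have g1 := (hseg j' (by omega) i j3 (by omega) (fun _ => j4)).1
      have g2 := (hC c hc).2 j' (by omega) (by omega)
      have g3 := hgrow c hc
      rw [abs_le] at g1
      linarith
    have hrow := (hGb c (hCG hc)).2.2.2 i hlow hupp
    have := row_ineq W κ (⌊12800 * κ⌋₊ : ℤ) (by omega) (by positivity)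
      (by
        have : ⌊12800 * κ⌋₊ ≤ 3200 := by
          apply Nat.floor_le_of_le
          push_cast
          linarith
        exact_mod_cast this)
      (by
        push_cast
        exact Nat.floor_le (by positivity))
      (by
        push_cast
        exact Nat.lt_floor_add_one _)
      (P c) (Q c) (a (6400 * c)) (r (6400 * c)) (lev (γ i)) ((γ i).2) n hn p1 p2 (hQ1 c) (hQ2 c)
      hrow (by linarith) (by linarith)
    exact this

end Pool.Agent.Y154.QB
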